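import Pool.Agent.C4N.Stm2
import Pool.Agent.Helper29_C4N.Ebl

/-!
# Module PAL: the palette
-/

set_option autoImplicit false

open scoped BigOperators Classical

noncomputable section

namespace Pool.Agent.C4N.H65

open Finset
open Pool.Agent.Helper13_Conc

/-- the numbers -/
theorem num {c3 : ℝ} (h0 : 0 < c3) (h1 : c3 ≤ 1 / 1000) {k q : ℕ}
    (hk : 640000 * Nat.factorial 14 ≤ k) (hq : q = ⌈(k : ℝ) ^ c3⌉₊) :
    1 ≤ q ∧ (q : ℝ) ≤ 2 * (k : ℝ) ^ (0.001 : ℝ) ∧
      Real.exp (-√(k : ℝ)) * (16 * ((200 * k ^ 3 : ℕ) : ℝ) ^ 2) ≤ 1 := by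
  have hk1 : (1 : ℝ) ≤ k := by
    have : 1 ≤ k := le_trans (by norm_num [Nat.factorial]) hk
    exact_mod_cast this
  have hp : (1 : ℝ) ≤ (k : ℝ) ^ c3 := Real.one_le_rpow hk1 h0.le
  refine ⟨?_, ?_, ?_⟩
  · rw [hq]
    exact Nat.one_le_iff_ne_zero.2 (Nat.ceil_pos.2 (by linarith)).ne'
  · have h2 : (q : ℝ) < (k : ℝ) ^ c3 + 1 := by
      rw [hq]
      exact Nat.ceil_lt_add_one (by linarith)
    have h3 : (k : ℝ) ^ c3 ≤ (k : ℝ) ^ (0.001 : ℝ) :=
      Real.rpow_le_rpow_of_exponent_le hk1 (by linarith [h1])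
    linarith
  · have h2 := Real.pow_div_factorial_le_exp (√(k : ℝ)) (Real.sqrt_nonneg _) 14
    have h3 : √(k : ℝ) ^ 14 = (k : ℝ) ^ 7 := by
      rw [show (14 : ℕ) = 2 * 7 by norm_num, pow_mul, Real.sq_sqrt (by linarith)]
    rw [h3] at h2
    have h4 : (640000 : ℝ) * (Nat.factorial 14 : ℕ) ≤ k := by
      exact_mod_cast hk
    have h5 : (0 : ℝ) < (Nat.factorial 14 : ℕ) := by
      exact_mod_cast Nat.factorial_pos 14
    rw [div_le_iff₀ h5] at h2
    rw [Real.exp_neg, inv_mul_le_iff₀ (Real.exp_pos _), mul_one]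
    push_cast
    have h6 : (640000 * (Nat.factorial 14 : ℕ) : ℝ) * (k : ℝ) ^ 6 ≤
        Real.exp √(k : ℝ) * (Nat.factorial 14 : ℕ) := by
      calc (640000 * (Nat.factorial 14 : ℕ) : ℝ) * (k : ℝ) ^ 6 ≤ k * (k : ℝ) ^ 6 := by gcongr
        _ = (k : ℝ) ^ 7 := by ring
        _ ≤ _ := h2
    have h7 : (640000 * (k : ℝ) ^ 6) * (Nat.factorial 14 : ℕ) ≤
        Real.exp √(k : ℝ) * (Nat.factorial 14 : ℕ) := by
      calc _ = (640000 * (Nat.factorial 14 : ℕ) : ℝ) * (k : ℝ) ^ 6 := by ring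
        _ ≤ _ := h6
    have h8 := le_of_mul_le_mul_right h7 h5
    calc (16 : ℝ) * (200 * (k : ℝ) ^ 3) ^ 2 = 640000 * (k : ℝ) ^ 6 := by ring
      _ ≤ _ := h8

/-- the exponents of the tails -/
theorem num2 {k q : ℕ} (hk : 640000 * Nat.factorial 14 ≤ k) (hq : 1 ≤ q)
    (hq2 : (q : ℝ) ≤ 2 * (k : ℝ) ^ (0.001 : ℝ)) {s Y : ℝ} (hs : (k : ℝ) ^ (0.99 : ℝ) ≤ s)
    (hY : (k : ℝ) ^ (0.99 : ℝ) ≤ Y) :
    √(k : ℝ) ≤ 4 * k / q ∧ √(k : ℝ) ≤ 100 * s / q ∧ √(k : ℝ) ≤ Y / q ^ 2 / 8 := by
  have hk0 : (2 ^ 20 : ℝ) ≤ k := by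
    have : 2 ^ 20 ≤ k := le_trans (by norm_num [Nat.factorial]) hk
    exact_mod_cast this
  have hkp : (0 : ℝ) < k := by linarith
  have hk1 : (1 : ℝ) ≤ k := by linarith
  have hq0 : (0 : ℝ) < q := by exact_mod_cast hq
  have e1 : (k : ℝ) ^ (0.99 : ℝ) ≤ k := by
    calc (k : ℝ) ^ (0.99 : ℝ) ≤ (k : ℝ) ^ (1 : ℝ) :=
          Real.rpow_le_rpow_of_exponent_le hk1 (by norm_num)
      _ = k := Real.rpow_one _
  -- the main estimate
  have hmain : √(k : ℝ) ≤ (k : ℝ) ^ (0.99 : ℝ) / q ^ 2 / 8 := by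
    rw [div_div, le_div_iff₀ (by positivity), Real.sqrt_eq_rpow]
    have h2 : (q : ℝ) ^ 2 ≤ 4 * (k : ℝ) ^ (0.002 : ℝ) := by
      calc (q : ℝ) ^ 2 ≤ (2 * (k : ℝ) ^ (0.001 : ℝ)) ^ 2 := by gcongr
        _ = 4 * ((k : ℝ) ^ (0.001 : ℝ) * (k : ℝ) ^ (0.001 : ℝ)) := by ring
        _ = 4 * (k : ℝ) ^ (0.002 : ℝ) := by
            rw [← Real.rpow_add hkp]
            norm_num
    have h3 : (32 : ℝ) ≤ (k : ℝ) ^ (0.488 : ℝ) := by
      calc (32 : ℝ) = (2 ^ 20 : ℝ) ^ (1 / 4 : ℝ) := by
            rw [show (2 ^ 20 : ℝ) = 32 ^ (4 : ℝ) by norm_num, ← Real.rpow_mul (by norm_num)]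
            norm_num
        _ ≤ (k : ℝ) ^ (1 / 4 : ℝ) := Real.rpow_le_rpow (by norm_num) hk0 (by norm_num)
        _ ≤ (k : ℝ) ^ (0.488 : ℝ) := Real.rpow_le_rpow_of_exponent_le hk1 (by norm_num)
    calc (k : ℝ) ^ (1 / 2 : ℝ) * (q ^ 2 * 8) ≤
          (k : ℝ) ^ (1 / 2 : ℝ) * ((4 * (k : ℝ) ^ (0.002 : ℝ)) * 8) := by gcongr
      _ = (k : ℝ) ^ (1 / 2 : ℝ) * (k : ℝ) ^ (0.002 : ℝ) * 32 := by ring
      _ ≤ (k : ℝ) ^ (1 / 2 : ℝ) * (k : ℝ) ^ (0.002 : ℝ) * (k : ℝ) ^ (0.488 : ℝ) := by gcongr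
      _ = (k : ℝ) ^ (0.99 : ℝ) := by
          rw [← Real.rpow_add hkp, ← Real.rpow_add hkp]
          norm_num
  have h4 : (k : ℝ) ^ (0.99 : ℝ) / q ^ 2 / 8 ≤ (k : ℝ) ^ (0.99 : ℝ) / q := by
    rw [div_div]
    apply div_le_div_of_nonneg_left (by positivity) hq0
    have : (1 : ℝ) ≤ q := by exact_mod_cast hq
    nlinarith
  refine ⟨?_, ?_, ?_⟩
  · refine hmain.trans (h4.trans ?_)
    apply div_le_div_of_nonneg_right _ hq0.le
    linarith
  · refine hmain.trans (h4.trans ?_)
    apply div_le_div_of_nonneg_right _ hq0.le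
    have : (0 : ℝ) ≤ (k : ℝ) ^ (0.99 : ℝ) := by positivity
    linarith
  · refine hmain.trans ?_
    gcongr

section count

variable {V : Type} [Fintype V]

theorem card_nb (R : SimpleGraph V) (x : V) : (univ.filter fun y => R.Adj x y).card = dg R x :=
  H29.card_nb R x

theorem mean_pair {α : Type} [Fintype α] [Nonempty α] (o : α) (a b : V) (hab : a ≠ b) :
    mean (fun ω : V → α => if ω a = o ∧ ω b = o then (1 : ℝ) else 0) =
      1 / (Fintype.card α : ℝ) ^ 2 := by
  have h1 := H29.card_all (E := V) (α := α) {a, b} {o}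
  have h2 := card_filter_eq_mean (V := V) (α := α) fun ω => ω a = o ∧ ω b = o
  have h3 : (univ.filter fun ω : V → α => ∀ e ∈ ({a, b} : Finset V), ω e ∈ ({o} : Finset α)) =
      univ.filter fun ω : V → α => ω a = o ∧ ω b = o := by
    ext ω
    simp
  rw [h3, h2, card_pair hab, card_singleton] at h1
  have h4 := card_pos' (V := V) (α := α)
  have h5 := mul_right_cancel₀ h4.ne' h1
  rw [h5]
  push_cast
  ring

end count

theorem pal (llb : LLBStmt) : PALStmt := by
  intro c3 hc0 hc1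
  refine ⟨640000 * Nat.factorial 14, ?_⟩
  intro k s q n hk hs1 hs2 hq hn V _ N T Y P hC4 hTN hdN hdT hYP hYc
  obtain ⟨hq1, hq2, hnum⟩ := num hc0 hc1 hk hq
  obtain ⟨α, iα, hα⟩ : ∃ (α : Type) (_ : Fintype α), Fintype.card α = q :=
    ⟨Fin q, inferInstance, Fintype.card_fin q⟩
  have hne : Nonempty α := Fintype.card_pos_iff.1 (by omega)
  obtain ⟨o⟩ := id hne
  have hk1 : 1 ≤ k := le_trans (by norm_num [Nat.factorial]) hk
  have hq0 : (0 : ℝ) < q := by exact_mod_cast hq1
  -- the sets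
  obtain ⟨FN, hFN⟩ : ∃ F : V → Finset V, F = fun v => univ.filter fun y => N.Adj v y := ⟨_, rfl⟩
  obtain ⟨FT, hFT⟩ : ∃ F : V → Finset V, F = fun v => univ.filter fun y => T.Adj v y := ⟨_, rfl⟩
  have cN : ∀ v, (FN v).card = dg N v := by
    intro v
    rw [hFN]
    exact card_nb N v
  have cT : ∀ v, (FT v).card = dg T v := by
    intro v
    rw [hFT]
    exact card_nb T v
  obtain ⟨W3, hW3⟩ : ∃ W : Fin n × V → Finset V,
    W = fun p => (Y p.1 p.2).biUnion fun y => {P true p.1 y, P false p.1 y} := ⟨_, rfl⟩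
  obtain ⟨X, hX⟩ : ∃ X : Fin n → V → (V → α) → ℝ, X = fun i y ω =>
    if ω (P true i y) = o ∧ ω (P false i y) = o then (1 : ℝ) else 0 := ⟨_, rfl⟩
  have hYN : ∀ i v, Y i v ⊆ FN v := by
    intro i v y hy
    rw [hFN]
    exact mem_filter.2 ⟨mem_univ _, (hYP i v y hy).1⟩
  have hYk : ∀ i v, (Y i v).card ≤ 3 * k := by
    intro i v
    exact (card_le_card (hYN i v)).trans ((cN v).le.trans (hdN v))
  obtain ⟨W, hW⟩ : ∃ W : V ⊕ V ⊕ (Fin n × V) → Finset V,
    W = Sum.elim FN (Sum.elim FT W3) := ⟨_, rfl⟩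
  obtain ⟨B, hB⟩ : ∃ B : V ⊕ V ⊕ (Fin n × V) → Finset (V → α), B =
    Sum.elim (fun v => univ.filter fun ω => 2 * (3 * (k : ℝ) / q) + 4 * k / q ≤
        (((FN v).filter fun e => ω e ∈ ({o} : Finset α)).card : ℝ))
      (Sum.elim (fun v => univ.filter fun ω => 2 * (100 * (s : ℝ) / q) + 100 * s / q ≤
        (((FT v).filter fun e => ω e ∈ ({o} : Finset α)).card : ℝ))
      fun p => univ.filter fun ω => ∑ y ∈ Y p.1 p.2, X p.1 y ω ≤
        (1 - 1 / 2) * ((Y p.1 p.2).card / (q : ℝ) ^ 2) - 0) := ⟨_, rfl⟩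
  -- disjoint pairs
  have hdisj : ∀ i v, ∀ y ∈ Y i v, ∀ y' ∈ Y i v, y ≠ y' →
      Disjoint ({P true i y, P false i y} : Finset V) {P true i y', P false i y'} := by
    intro i v y hy y' hy' hne
    rw [disjoint_left]
    intro u hu hu'
    have h1 : N.Adj y u ∧ u ≠ v := by
      rcases mem_insert.1 hu with h | h
      · rw [h]
        exact (hYP i v y hy).2.2 true
      · rw [mem_singleton.1 h]
        exact (hYP i v y hy).2.2 false
    have h2 : N.Adj y' u ∧ u ≠ v := by
      rcases mem_insert.1 hu' with h | h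
      · rw [h]
        exact (hYP i v y' hy').2.2 true
      · rw [mem_singleton.1 h]
        exact (hYP i v y' hy').2.2 false
    exact hne (hC4 v u y y' h1.2.symm (hYP i v y hy).1 h1.1.symm (hYP i v y' hy').1 h2.1.symm)
  have hdep : ∀ i y, Dep ({P true i y, P false i y} : Finset V) (X i y) := by
    intro i y ω ω' h
    rw [hX]
    simp only
    rw [h (P true i y) (by simp), h (P false i y) (by simp)]
  -- the probabilities
  have hprob : ∀ i, ((B i).card : ℝ) ≤ Real.exp (-√(k : ℝ)) * Fintype.card (V → α) := by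
    have hcard : (0 : ℝ) < Fintype.card (V → α) := card_pos'
    have hT1 : ((({o} : Finset α).card : ℕ) : ℝ) / Fintype.card (α) = 1 / q := by
      rw [card_singleton, hα, Nat.cast_one]
    rintro (v | v | ⟨i, v⟩)
    · have h1 := (num2 hk hq1 hq2 (s := s) (Y := s) hs1 hs1).1
      have h2 := (H29.edc V α (FN v) {o} (3 * (k : ℝ) / q) (4 * k / q) ?_
        (by positivity)).1
      · rw [hB]
        simp only [Sum.elim_inl]
        refine h2.trans (mul_le_mul_of_nonneg_right ?_ hcard.le)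
        exact Real.exp_le_exp.2 (neg_le_neg h1)
      · rw [hT1, cN, mul_one_div]
        apply div_le_div_of_nonneg_right _ hq0.le
        exact_mod_cast hdN v
    · have h1 := (num2 hk hq1 hq2 (s := s) (Y := s) hs1 hs1).2.1
      have h2 := (H29.edc V α (FT v) {o} (100 * (s : ℝ) / q) (100 * s / q) ?_
        (by positivity)).1
      · rw [hB]
        simp only [Sum.elim_inl, Sum.elim_inr]
        refine h2.trans (mul_le_mul_of_nonneg_right ?_ hcard.le)
        exact Real.exp_le_exp.2 (neg_le_neg h1)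
      · rw [hT1, cT, mul_one_div]
        apply div_le_div_of_nonneg_right _ hq0.le
        exact_mod_cast hdT v
    · have h1 := (num2 hk hq1 hq2 (s := s) (Y := (Y i v).card) hs1 (hYc i v)).2.2
      have hmean : ∀ y ∈ Y i v, mean (X i y) = 1 / (q : ℝ) ^ 2 := by
        intro y hy
        rw [hX, ← hα]
        exact mean_pair o _ _ (hYP i v y hy).2.1
      have h2 := T2 (V := V) (α := α) (Y i v)
        (fun y => {P true i y, P false i y}) (hdisj i v) (X i) (fun y _ => hdep i y) 1 one_pos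
        (fun y _ ω => by
          rw [hX]
          simp only
          split_ifs <;> norm_num)
        (fun y _ ω => by
          rw [hX]
          simp only
          split_ifs <;> norm_num)
        ((Y i v).card / (q : ℝ) ^ 2) (1 / 2) 0 (by positivity)
        (by
          rw [sum_congr rfl hmean, sum_const, nsmul_eq_mul, mul_one_div]) (by norm_num)
        (by norm_num)
        (fun ω => ∑ y ∈ Y i v, X i y ω ≤ (1 - 1 / 2) * ((Y i v).card / (q : ℝ) ^ 2) - 0)
        fun ω h => h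
      rw [hB]
      simp only [Sum.elim_inr]
      refine h2.trans (mul_le_mul_of_nonneg_right ?_ hcard.le)
      apply Real.exp_le_exp.2
      apply neg_le_neg
      calc √(k : ℝ) ≤ (Y i v).card / (q : ℝ) ^ 2 / 8 := h1
        _ = 1 / 2 / 1 * (1 / 2 * ((Y i v).card / (q : ℝ) ^ 2) / 2 + 0) := by ring
  have hdp : ∀ i (ω ω' : V → α), (∀ e ∈ W i, ω e = ω' e) → ω ∈ B i → ω' ∈ B i := by
    -- dependence
    rintro (v | v | ⟨i, v⟩) ω ω' h hω
    · rw [hW] at h
      rw [hB] at hω ⊢
      simp only [Sum.elim_inl, mem_filter, mem_univ, true_and] at h hω ⊢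
      have h1 : ((FN v).filter fun e => ω' e ∈ ({o} : Finset α)) =
          (FN v).filter fun e => ω e ∈ ({o} : Finset α) := by
        apply filter_congr
        intro e he
        rw [h e he]
      rw [h1]
      exact hω
    · rw [hW] at h
      rw [hB] at hω ⊢
      simp only [Sum.elim_inl, Sum.elim_inr, mem_filter, mem_univ, true_and] at h hω ⊢
      have h1 : ((FT v).filter fun e => ω' e ∈ ({o} : Finset α)) =
          (FT v).filter fun e => ω e ∈ ({o} : Finset α) := by
        apply filter_congr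
        intro e he
        rw [h e he]
      rw [h1]
      exact hω
    · rw [hW] at h
      rw [hB] at hω ⊢
      simp only [Sum.elim_inr, mem_filter, mem_univ, true_and] at h hω ⊢
      have h1 : ∑ y ∈ Y i v, X i y ω' = ∑ y ∈ Y i v, X i y ω := by
        apply sum_congr rfl
        intro y hy
        refine (hdep i y ω ω' fun e he => h e ?_).symm
        rw [hW3]
        exact mem_biUnion.2 ⟨y, hy, he⟩
      rw [h1]
      exact hω
  have hsz : ∀ i, (W i).card ≤ 200 * k ^ 3 := by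
    -- size of the sets
    have h1 : k ≤ k ^ 3 := Nat.le_self_pow (by norm_num) k
    rintro (v | v | ⟨i, v⟩)
    · rw [hW]
      simp only [Sum.elim_inl]
      have := hdN v
      rw [cN]
      omega
    · rw [hW]
      simp only [Sum.elim_inl, Sum.elim_inr]
      have := hdT v
      rw [cT]
      omega
    · rw [hW]
      simp only [Sum.elim_inr]
      rw [hW3]
      simp only
      have h2 : ((Y i v).biUnion fun y => {P true i y, P false i y}).card ≤ (Y i v).card * 2 :=
        card_biUnion_le_card_mul _ _ 2 fun y _ => card_le_two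
      have := hYk i v
      omega
  have hev : ∀ e, (univ.filter fun i => e ∈ W i).card ≤ 200 * k ^ 3 := by
    -- number of the events of one coordinate
    intro e
    have h1 : k ≤ k ^ 3 := Nat.le_self_pow (by norm_num) k
    have h2 : (univ.filter fun i => e ∈ W i) ⊆
        ((FN e).map ⟨Sum.inl, Sum.inl_injective⟩) ∪
        (((FT e).image fun v => Sum.inr (Sum.inl v)) ∪
        ((univ ×ˢ ((FN e).biUnion FN)).image fun p : Fin n × V => Sum.inr (Sum.inr p))) := by
      rintro (v | v | ⟨i, v⟩) hi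
      · rw [hW] at hi
        simp only [Sum.elim_inl, mem_filter, mem_univ, true_and] at hi
        rw [mem_union]
        left
        rw [mem_map]
        refine ⟨v, ?_, rfl⟩
        rw [hFN] at hi ⊢
        simp only [mem_filter, mem_univ, true_and] at hi ⊢
        exact hi.symm
      · rw [hW] at hi
        simp only [Sum.elim_inl, Sum.elim_inr, mem_filter, mem_univ, true_and] at hi
        rw [mem_union, mem_union]
        right
        left
        rw [mem_image]
        refine ⟨v, ?_, rfl⟩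
        rw [hFT] at hi ⊢
        simp only [mem_filter, mem_univ, true_and] at hi ⊢
        exact hi.symm
      · rw [hW] at hi
        simp only [Sum.elim_inr, mem_filter, mem_univ, true_and] at hi
        rw [mem_union, mem_union]
        right
        right
        rw [mem_image]
        refine ⟨(i, v), ?_, rfl⟩
        rw [hW3] at hi
        obtain ⟨y, hy, hy2⟩ := mem_biUnion.1 hi
        rw [mem_product]
        refine ⟨mem_univ _, mem_biUnion.2 ⟨y, ?_, ?_⟩⟩
        · rw [hFN]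
          refine mem_filter.2 ⟨mem_univ _, ?_⟩
          rcases mem_insert.1 hy2 with h | h
          · rw [h]
            exact ((hYP i v y hy).2.2 true).1.symm
          · rw [mem_singleton.1 h]
            exact ((hYP i v y hy).2.2 false).1.symm
        · rw [hFN]
          exact mem_filter.2 ⟨mem_univ _, (hYP i v y hy).1.symm⟩
    have h3 : ((FN e).biUnion FN).card ≤ 3 * k * (3 * k) := by
      refine (card_biUnion_le_card_mul _ _ (3 * k) fun v _ => ?_).trans ?_
      · rw [cN]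
        exact hdN v
      · rw [cN]
        exact Nat.mul_le_mul_right _ (hdN e)
    refine (card_le_card h2).trans ((card_union_le _ _).trans ?_)
    have h4 : ((FN e).map ⟨Sum.inl, Sum.inl_injective⟩ :
        Finset (V ⊕ V ⊕ (Fin n × V))).card ≤ 3 * k := by
      rw [card_map, cN]
      exact hdN e
    have h5 : (((FT e).image fun v => Sum.inr (Sum.inl v)) : Finset (V ⊕ V ⊕ (Fin n × V))).card ≤
        100 * k := by
      refine card_image_le.trans ?_
      rw [cT]
      have := hdT e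
      omega
    have h6 : (((univ ×ˢ ((FN e).biUnion FN)).image fun p : Fin n × V => Sum.inr (Sum.inr p)) :
        Finset (V ⊕ V ⊕ (Fin n × V))).card ≤ 9 * k ^ 3 := by
      refine card_image_le.trans ?_
      rw [card_product, card_univ, Fintype.card_fin]
      calc n * ((FN e).biUnion FN).card ≤ k * (3 * k * (3 * k)) := Nat.mul_le_mul hn h3
        _ = 9 * k ^ 3 := by ring
    have h7 := card_union_le ((FT e).image fun v => (Sum.inr (Sum.inl v) : V ⊕ V ⊕ (Fin n × V)))
      ((univ ×ˢ ((FN e).biUnion FN)).image fun p : Fin n × V => Sum.inr (Sum.inr p))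
    omega
  have hpr : ∀ i, ((B i).card : ℝ) * (16 * ((200 * k ^ 3 : ℕ) : ℝ) ^ 2) ≤ Fintype.card (V → α) := by
    intro i
    have h1 := hprob i
    have hcard : (0 : ℝ) < Fintype.card (V → α) := card_pos'
    calc ((B i).card : ℝ) * (16 * ((200 * k ^ 3 : ℕ) : ℝ) ^ 2) ≤
          (Real.exp (-√(k : ℝ)) * Fintype.card (V → α)) *
            (16 * ((200 * k ^ 3 : ℕ) : ℝ) ^ 2) := by gcongr
      _ = (Real.exp (-√(k : ℝ)) * (16 * ((200 * k ^ 3 : ℕ) : ℝ) ^ 2)) *
          Fintype.card (V → α) := by ring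
      _ ≤ 1 * Fintype.card (V → α) := by gcongr
      _ = _ := one_mul _
  have hD1 : 1 ≤ 200 * k ^ 3 := by
    have : 1 ≤ k ^ 3 := Nat.one_le_pow _ _ hk1
    omega
  -- the local lemma
  obtain ⟨ω, hω⟩ := llb V α (V ⊕ V ⊕ (Fin n × V)) B W (200 * k ^ 3) hD1 hdp hsz hev hpr
  refine ⟨univ.filter fun v => ω v = o, ?_, ?_, ?_⟩
  · intro v
    have h1 := hω (Sum.inl v)
    rw [hB] at h1
    simp only [Sum.elim_inl, mem_filter, mem_univ, true_and, not_le] at h1
    have h2 : {u | N.Adj v u ∧ u ∈ univ.filter fun v => ω v = o} =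
        (((FN v).filter fun e => ω e ∈ ({o} : Finset α) : Finset V) : Set V) := by
      ext u
      rw [hFN]
      simp
    rw [h2, Set.ncard_coe_finset]
    refine h1.le.trans (le_of_eq ?_)
    ring
  · intro v
    have h1 := hω (Sum.inr (Sum.inl v))
    rw [hB] at h1
    simp only [Sum.elim_inl, Sum.elim_inr, mem_filter, mem_univ, true_and, not_le] at h1
    have h2 : {u | T.Adj v u ∧ u ∈ univ.filter fun v => ω v = o} =
        (((FT v).filter fun e => ω e ∈ ({o} : Finset α) : Finset V) : Set V) := by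
      ext u
      rw [hFT]
      simp
    rw [h2, Set.ncard_coe_finset]
    refine h1.le.trans (le_of_eq ?_)
    ring
  · intro i v
    have h1 := hω (Sum.inr (Sum.inr (i, v)))
    rw [hB] at h1
    simp only [Sum.elim_inr, mem_filter, mem_univ, true_and, not_le] at h1
    have h2 : ∑ y ∈ Y i v, X i y ω = (((Y i v).filter fun y =>
        P true i y ∈ univ.filter (fun v => ω v = o) ∧
          P false i y ∈ univ.filter (fun v => ω v = o)).card : ℝ) := by
      rw [card_filter, hX]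
      push_cast
      apply sum_congr rfl
      intro y _
      simp
    rw [h2] at h1
    have h3 : ((Y i v).card : ℝ) ≤ 2 * (q : ℝ) ^ 2 * (((Y i v).filter fun y =>
        P true i y ∈ univ.filter (fun v => ω v = o) ∧
          P false i y ∈ univ.filter (fun v => ω v = o)).card : ℝ) := by
      have h4 : (0 : ℝ) < (q : ℝ) ^ 2 := by positivity
      have h5 : ((Y i v).card : ℝ) = 2 * (q : ℝ) ^ 2 *
          ((1 - 1 / 2) * ((Y i v).card / (q : ℝ) ^ 2) - 0) := by
        field_simp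
        ring
      rw [h5]
      exact mul_le_mul_of_nonneg_left h1.le (by positivity)
    exact_mod_cast h3

end Pool.Agent.C4N.H65
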